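import Pool.Agent.Helper446.MaxIdeal

/-!
Degrees of maximal c.e. ideals of the countable atomless Boolean algebra.
-/

namespace Pool.Agent.Results.MP_460ee8_lc.MaximalIdealDegrees

open Pool.Agent.Helper446.Defs (chi)

/-- A decidable presentation of the Boolean algebra `A`: a numbering of the elements of `A` by
natural numbers whose range is computable and for which the operations and the order are
computable. -/
structure Presentation (A : Type) [BooleanAlgebra A] where
  code : A → ℕ
  code_injective : Function.Injective code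
  computable_range : ComputablePred fun n => n ∈ Set.range code
  sup : ∃ f : ℕ → ℕ → ℕ, Computable₂ f ∧ ∀ a b, f (code a) (code b) = code (a ⊔ b)
  inf : ∃ f : ℕ → ℕ → ℕ, Computable₂ f ∧ ∀ a b, f (code a) (code b) = code (a ⊓ b)
  compl : ∃ f : ℕ → ℕ, Computable f ∧ ∀ a, f (code a) = code aᶜ
  le : ComputablePred fun p : ℕ × ℕ => ∃ a b, p.1 = code a ∧ p.2 = code b ∧ a ≤ b

/-- The set of codes of the elements of an ideal. -/
def Presentation.codes {A : Type} [BooleanAlgebra A] (p : Presentation A)
    (I : Order.Ideal A) : Set ℕ := p.code '' (I : Set A)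

/-- The ideal is c.e. -/
def IsCE {A : Type} [BooleanAlgebra A] (p : Presentation A) (I : Order.Ideal A) : Prop :=
  REPred fun n => n ∈ p.codes I

/-- The ideal is a maximal c.e. ideal: it is c.e., it has infinitely many c.e. ideals extending
it, and every c.e. ideal extending it is generated over it by a single element. -/
structure IsMaximalCE {A : Type} [BooleanAlgebra A] (p : Presentation A)
    (I : Order.Ideal A) : Prop where
  ce : IsCE p I
  infinite : {J : Order.Ideal A | IsCE p J ∧ I ≤ J}.Infinite
  principal : ∀ J : Order.Ideal A, IsCE p J → I ≤ J → ∃ x : A, J = I ⊔ Order.Ideal.principal x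

/-- The Turing degree of a set of natural numbers. -/
noncomputable def deg (S : Set ℕ) : TuringDegree :=
  toAntisymmetrization TuringReducible (chi S)

open Encodable Pool.Agent.Helper446 Pool.Agent.Helper446.RE Pool.Agent.Helper446.Oracle
  Pool.Agent.Helper446.Deg

section glue

variable {A : Type} [BooleanAlgebra A] (p : Presentation A)

theorem infinite_of_atomless (hnt : (⊤ : A) ≠ ⊥)
    (hatomless : ∀ a : A, a ≠ ⊥ → ∃ b : A, b ≠ ⊥ ∧ b < a) : Infinite A := by
  classical
  by_contra hcon
  rw [not_infinite_iff_finite] at hcon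
  have hne : {a : A | a ≠ ⊥}.Nonempty := ⟨⊤, hnt⟩
  obtain ⟨a, ha, hmin⟩ := (Finite.to_wellFoundedLT (α := A)).wf.has_min _ hne
  obtain ⟨b, hb, hba⟩ := hatomless a ha
  exact hmin b hb hba

open Classical in
/-- The index of an element. -/
noncomputable def idx (a : A) : ℕ := Nat.count (fun n => n ∈ Set.range p.code) (p.code a)

open Classical in
theorem idx_bijective [Infinite A] : Function.Bijective (idx p) := by
  have hinf : (Set.range p.code).Infinite := Set.infinite_range_of_injective p.code_injective
  constructor
  · intro a b h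
    apply p.code_injective
    unfold idx at h
    exact Nat.count_injective (p := fun n => n ∈ Set.range p.code) ⟨a, rfl⟩ ⟨b, rfl⟩ h
  · intro n
    obtain ⟨a, ha⟩ := Nat.nth_mem_of_infinite (p := fun n => n ∈ Set.range p.code) hinf n
    refine ⟨a, ?_⟩
    unfold idx
    rw [ha]
    exact Nat.count_nth_of_infinite hinf n

open Classical in
theorem count_comp : ∃ c : ℕ → ℕ, Computable c ∧ ∀ a, c (p.code a) = idx p a := by
  refine ⟨fun n => Nat.count (fun n => n ∈ Set.range p.code) n, ?_, fun a => rfl⟩
  have h := Computable.nat_rec (f := fun n : ℕ => n) (g := fun _ => 0)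
    (h := fun _ (q : ℕ × ℕ) => q.2 + (if q.1 ∈ Set.range p.code then 1 else 0))
    (by fun_prop) (by fun_prop) (by
      unfold Computable₂
      have h2 : Computable fun x : ℕ × (ℕ × ℕ) =>
          (if x.2.1 ∈ Set.range p.code then 1 else 0 : ℕ) :=
        cite (cp_comp p.computable_range (by fun_prop)) (by fun_prop) (by fun_prop)
      fun_prop)
  refine h.of_eq fun n => ?_
  induction n with
  | zero => rfl
  | succ n ih => rw [Nat.count_succ, ← ih]

/-- The coding of the elements by their indices. -/
@[instance_reducible] noncomputable def den [Infinite A] : Denumerable A :=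
  Denumerable.mk' (Equiv.ofBijective (idx p) (idx_bijective p))

theorem main (hnt : (⊤ : A) ≠ ⊥) (hatomless : ∀ a : A, a ≠ ⊥ → ∃ b : A, b ≠ ⊥ ∧ b < a)
    {E : Set ℕ} (hE : REPred fun n => n ∈ E) :
    ∃ I : Order.Ideal A, IsMaximalCE p I ∧ deg E = deg (p.codes I) := by
  have : Infinite A := infinite_of_atomless hnt hatomless
  let _ : Denumerable A := den p
  have henc : ∀ a : A, encode a = idx p a := fun a => rfl
  obtain ⟨c, hc, hci⟩ := count_comp p
  have hof : ∀ a : A, Denumerable.ofNat A (c (p.code a)) = a := by
    intro a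
    rw [hci, ← henc, Denumerable.ofNat_encode]
  have hofc : Computable fun n : ℕ => Denumerable.ofNat A n := Computable.ofNat A
  have hcode : Computable fun a : A => p.code a := by
    refine computable_of_graph ?_
    have h1 : REPred fun x : A × ℕ => x.2 ∈ Set.range p.code ∧ c x.2 = encode x.1 :=
      RE.and (RE.comp p.computable_range.to_re (by fun_prop))
        (RE.eq (by fun_prop) (by fun_prop))
    refine h1.of_eq fun x => ?_
    constructor
    · rintro ⟨⟨a, ha⟩, h⟩
      rw [← ha, hci, henc] at h
      rw [(idx_bijective p).1 h.symm, ha]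
    · intro h
      rw [← h]
      exact ⟨⟨_, rfl⟩, by rw [hci, henc]⟩
  have hsup : Computable₂ fun a b : A => a ⊔ b := by
    obtain ⟨f, hf, hfs⟩ := p.sup
    have h1 : Computable fun x : A × A => Denumerable.ofNat A (c (f (p.code x.1) (p.code x.2))) :=
      hofc.comp (hc.comp (hf.comp (hcode.comp (by fun_prop)) (hcode.comp (by fun_prop))))
    refine h1.of_eq fun x => ?_
    rw [hfs, hof]
  have hinf : Computable₂ fun a b : A => a ⊓ b := by
    obtain ⟨f, hf, hfs⟩ := p.inf
    have h1 : Computable fun x : A × A => Denumerable.ofNat A (c (f (p.code x.1) (p.code x.2))) :=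
      hofc.comp (hc.comp (hf.comp (hcode.comp (by fun_prop)) (hcode.comp (by fun_prop))))
    refine h1.of_eq fun x => ?_
    rw [hfs, hof]
  have hcompl : Computable fun a : A => aᶜ := by
    obtain ⟨f, hf, hfs⟩ := p.compl
    have h1 : Computable fun x : A => Denumerable.ofNat A (c (f (p.code x))) :=
      hofc.comp (hc.comp (hf.comp hcode))
    refine h1.of_eq fun x => ?_
    rw [hfs, hof]
  have hmem : ∀ (I : Order.Ideal A) (a : A), a ∈ I ↔ p.code a ∈ p.codes I := by
    intro I a
    constructor
    · exact fun h => ⟨a, h, rfl⟩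
    · rintro ⟨b, hb, h⟩
      rwa [← p.code_injective h]
  have hCE : ∀ I : Order.Ideal A, IsCE p I ↔ REPred fun a => a ∈ I := by
    intro I
    constructor
    · intro h
      exact (RE.comp h hcode).of_eq fun a => (hmem I a).symm
    · intro h
      refine (RE.ex (p := fun (n : ℕ) (a : A) => a ∈ (I : Set A) ∧ p.code a = n) ?_).of_eq
        fun n => Iff.rfl
      exact RE.and (RE.comp h (by fun_prop)) (RE.eq (by fun_prop) (by fun_prop))
  obtain ⟨I, h1, h2, h3, h4⟩ := MaxIdeal.exists_ideal hsup hinf hcompl hnt hatomless hE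
  refine ⟨I, ⟨(hCE I).2 h1, ?_, ?_⟩, ?_⟩
  · refine h2.mono ?_
    rintro J ⟨hJ1, hJ2⟩
    exact ⟨(hCE J).2 hJ1, hJ2⟩
  · intro J hJ hIJ
    exact h3 J ((hCE J).1 hJ) hIJ
  · have h5 : Defs.degree (p.codes I) = Defs.degree (I : Set A) := by
      refine degree_eq ?_ ?_ ?_ ?_
      · refine (REIn.ex (S := fun (n : ℕ) (a : A) => a ∈ (I : Set A) ∧ p.code a = n) ?_).of_eq
          fun n => Iff.rfl
        exact REIn.and (rein_cod.comp (by fun_prop))
          (REIn.of_re (RE.eq (by fun_prop) (by fun_prop)))
      · have h6 : REIn (cod (I : Set A)) fun n : ℕ => n ∉ Set.range p.code ∨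
            ∃ a : A, p.code a = n ∧ a ∉ (I : Set A) := by
          refine REIn.or (REIn.of_re p.computable_range.not.to_re) ?_
          refine REIn.ex (S := fun (n : ℕ) (a : A) => p.code a = n ∧ a ∉ (I : Set A)) ?_
          exact REIn.and (REIn.of_re (RE.eq (by fun_prop) (by fun_prop)))
            (rein_cod_not.comp (by fun_prop))
        refine h6.of_eq fun n => ?_
        constructor
        · rintro (h7 | ⟨a, rfl, h7⟩)
          · rintro ⟨a, -, rfl⟩
            exact h7 ⟨a, rfl⟩
          · rw [← hmem]; exact h7
        · intro h7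
          by_cases h8 : n ∈ Set.range p.code
          · right
            obtain ⟨a, rfl⟩ := h8
            exact ⟨a, rfl, fun h => h7 ((hmem I a).1 h)⟩
          · left; exact h8
      · rw [cod_nat]
        exact (REIn.mem hcode).of_eq fun a => (hmem I a).symm
      · rw [cod_nat]
        exact (REIn.not_mem hcode).of_eq fun a => not_congr (hmem I a).symm
    have h6 : ∀ S : Set ℕ, deg S = Defs.degree S := by
      intro S
      unfold deg Defs.degree
      rw [show (encode '' S : Set ℕ) = S from cod_nat S]
    rw [h6, h6, h5, h4]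

end glue

/-- For every decidable presentation of the countable atomless Boolean algebra, the degrees of
its maximal c.e. ideals are exactly all c.e. Turing degrees. -/
theorem result {A : Type} [BooleanAlgebra A] (p : Presentation A) (hnt : (⊤ : A) ≠ ⊥)
    (hatomless : ∀ a : A, a ≠ ⊥ → ∃ b : A, b ≠ ⊥ ∧ b < a) :
    {d : TuringDegree | ∃ I : Order.Ideal A, IsMaximalCE p I ∧ d = deg (p.codes I)} =
      {d : TuringDegree | ∃ E : Set ℕ, (REPred fun n => n ∈ E) ∧ d = deg E} := by
  ext d
  constructor
  · rintro ⟨I, hI, rfl⟩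
    exact ⟨p.codes I, hI.ce, rfl⟩
  · rintro ⟨E, hE, rfl⟩
    exact main p hnt hatomless hE

end Pool.Agent.Results.MP_460ee8_lc.MaximalIdealDegrees
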